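import Mathlib

set_option autoImplicit false

/-!
PR-1 (MP_6d3b2d_gt, project of helper46): the flow of a `C¹` field is `C¹` in the initial value
and the time.  Linear equation by the Dyson series, differentiability and continuity of the
derivative by the inequality of Gronwall.
-/

open Set Filter Topology MeasureTheory

namespace H46.PR

section LinearODE

variable {V : Type} [NormedAddCommGroup V] [NormedSpace ℝ V]

/-- Terms of the Dyson series. -/
noncomputable def pr1_I (A : ℝ → V →L[ℝ] V) (x₀ : V) : ℕ → ℝ → V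
  | 0, _ => x₀
  | (n + 1), t => ∫ s in (0 : ℝ)..t, A s (pr1_I A x₀ n s)

theorem pr1_I_cont {A : ℝ → V →L[ℝ] V} (hA : Continuous A) (x₀ : V) (n : ℕ) :
    Continuous (pr1_I A x₀ n) := by
  induction n with
  | zero => exact continuous_const
  | succ n ih =>
    have hg : Continuous (fun s => A s (pr1_I A x₀ n s)) := hA.clm_apply ih
    exact intervalIntegral.continuous_primitive (fun a b => hg.intervalIntegrable a b) 0

theorem pr1_I_bound {A : ℝ → V →L[ℝ] V} (hA : Continuous A) (x₀ : V) {K : ℝ} (hK0 : 0 ≤ K)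
    (hK : ∀ s ∈ Icc (0 : ℝ) 1, ‖A s‖ ≤ K) (n : ℕ) :
    ∀ t ∈ Icc (0 : ℝ) 1, ‖pr1_I A x₀ n t‖ ≤ ‖x₀‖ * (K ^ n / (n.factorial : ℝ)) * t ^ n := by
  induction n with
  | zero => intro t _; simp [pr1_I]
  | succ n ih =>
    intro t ht
    have hg : Continuous (fun s => A s (pr1_I A x₀ n s)) := hA.clm_apply (pr1_I_cont hA x₀ n)
    have h1 : ‖∫ s in (0 : ℝ)..t, A s (pr1_I A x₀ n s)‖ ≤
        ∫ s in (0 : ℝ)..t, (K * (‖x₀‖ * (K ^ n / (n.factorial : ℝ)))) * s ^ n := by
      refine intervalIntegral.norm_integral_le_of_norm_le ht.1 ?_ ?_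
      · refine Eventually.of_forall (fun s hs => ?_)
        have hs' : s ∈ Icc (0 : ℝ) 1 := ⟨hs.1.le, hs.2.trans ht.2⟩
        calc ‖A s (pr1_I A x₀ n s)‖ ≤ ‖A s‖ * ‖pr1_I A x₀ n s‖ := (A s).le_opNorm _
          _ ≤ K * (‖x₀‖ * (K ^ n / (n.factorial : ℝ)) * s ^ n) :=
              mul_le_mul (hK s hs') (ih s hs') (norm_nonneg _) hK0
          _ = _ := by ring
      · exact (continuous_const.mul (continuous_id.pow n)).intervalIntegrable _ _
    have h2 : ∫ s in (0 : ℝ)..t, (K * (‖x₀‖ * (K ^ n / (n.factorial : ℝ)))) * s ^ n =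
        ‖x₀‖ * (K ^ (n + 1) / ((n + 1).factorial : ℝ)) * t ^ (n + 1) := by
      rw [intervalIntegral.integral_const_mul, integral_pow, Nat.factorial_succ]
      have h3 : (n.factorial : ℝ) ≠ 0 := by positivity
      have h4 : ((n : ℝ) + 1) ≠ 0 := by positivity
      push_cast
      field_simp
      ring
    rw [← h2]
    exact h1

/-- Existence for a linear equation with continuous coefficient, on `[0, 1]`. -/
theorem pr1_lin [CompleteSpace V] {A : ℝ → V →L[ℝ] V} (hA : Continuous A) (x₀ : V) :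
    ∃ J : ℝ → V, J 0 = x₀ ∧ ∀ t ∈ Icc (0 : ℝ) 1, HasDerivAt J (A t (J t)) t := by
  obtain ⟨K', hK'⟩ := (isCompact_Icc (a := (0 : ℝ)) (b := 1)).exists_bound_of_continuousOn
    hA.continuousOn
  set K : ℝ := max K' 0
  have hK0 : 0 ≤ K := le_max_right _ _
  have hK : ∀ s ∈ Icc (0 : ℝ) 1, ‖A s‖ ≤ K := fun s hs => (hK' s hs).trans (le_max_left _ _)
  set u : ℕ → ℝ := fun n => ‖x₀‖ * (K ^ n / (n.factorial : ℝ)) with hu
  have hu0 : ∀ n, 0 ≤ u n := fun n => by
    rw [hu]; positivity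
  have hus : Summable u := (Real.summable_pow_div_factorial K).mul_left _
  have hb : ∀ n, ∀ t ∈ Icc (0 : ℝ) 1, ‖pr1_I A x₀ n t‖ ≤ u n := by
    intro n t ht
    calc ‖pr1_I A x₀ n t‖ ≤ u n * t ^ n := pr1_I_bound hA x₀ hK0 hK n t ht
      _ ≤ u n * 1 := mul_le_mul_of_nonneg_left (pow_le_one₀ ht.1 ht.2) (hu0 n)
      _ = u n := mul_one _
  set J0 : ℝ → V := fun t => ∑' n, pr1_I A x₀ n t with hJ0
  have hJ0c : ContinuousOn J0 (Icc 0 1) :=
    continuousOn_tsum (fun n => (pr1_I_cont hA x₀ n).continuousOn) hus hb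
  have hc : Continuous (fun s : ℝ => max 0 (min s 1)) :=
    continuous_const.max (continuous_id.min continuous_const)
  have hcm : ∀ s : ℝ, max 0 (min s 1) ∈ Icc (0 : ℝ) 1 := fun s =>
    ⟨le_max_left _ _, max_le zero_le_one (min_le_right _ _)⟩
  have hce : ∀ s ∈ Icc (0 : ℝ) 1, max 0 (min s 1) = s := fun s hs => by
    rw [min_eq_left hs.2, max_eq_right hs.1]
  set Jt : ℝ → V := fun s => J0 (max 0 (min s 1)) with hJt
  have hJtc : Continuous Jt := hJ0c.comp_continuous hc hcm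
  have hg : Continuous (fun s => A s (Jt s)) := hA.clm_apply hJtc
  set J : ℝ → V := fun t => x₀ + ∫ s in (0 : ℝ)..t, A s (Jt s) with hJ
  have hd : ∀ t, HasDerivAt J (A t (Jt t)) t := fun t =>
    (intervalIntegral.integral_hasDerivAt_right (hg.intervalIntegrable _ _)
      hg.stronglyMeasurable.stronglyMeasurableAtFilter hg.continuousAt).const_add x₀
  have heq : ∀ t ∈ Icc (0 : ℝ) 1, J t = Jt t := by
    intro t ht
    have hsum : ∀ s ∈ Icc (0 : ℝ) 1, HasSum (fun n => pr1_I A x₀ n s) (J0 s) := fun s hs =>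
      (Summable.of_norm_bounded hus (fun n => hb n s hs)).hasSum
    have h1 : HasSum (fun n => ∫ s in (0 : ℝ)..t, A s (pr1_I A x₀ n s))
        (∫ s in (0 : ℝ)..t, A s (Jt s)) := by
      refine intervalIntegral.hasSum_integral_of_dominated_convergence
        (fun n _ => K * u n) ?_ ?_ ?_ ?_ ?_
      · intro n
        exact (hA.clm_apply (pr1_I_cont hA x₀ n)).aestronglyMeasurable
      · intro n
        refine Eventually.of_forall (fun s hs => ?_)
        rw [uIoc_of_le ht.1] at hs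
        have hs' : s ∈ Icc (0 : ℝ) 1 := ⟨hs.1.le, hs.2.trans ht.2⟩
        calc ‖A s (pr1_I A x₀ n s)‖ ≤ ‖A s‖ * ‖pr1_I A x₀ n s‖ := (A s).le_opNorm _
          _ ≤ K * u n := mul_le_mul (hK s hs') (hb n s hs') (norm_nonneg _) hK0
      · exact Eventually.of_forall (fun s _ => hus.mul_left K)
      · exact intervalIntegrable_const
      · refine Eventually.of_forall (fun s hs => ?_)
        rw [uIoc_of_le ht.1] at hs
        have hs' : s ∈ Icc (0 : ℝ) 1 := ⟨hs.1.le, hs.2.trans ht.2⟩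
        have h2 : Jt s = J0 s := by simp only [hJt]; rw [hce s hs']
        rw [h2]
        exact (A s).hasSum (hsum s hs')
    have h3 : HasSum (fun n => pr1_I A x₀ (n + 1) t) (∫ s in (0 : ℝ)..t, A s (Jt s)) := h1
    have h4 : HasSum (fun n => pr1_I A x₀ n t) (x₀ + ∫ s in (0 : ℝ)..t, A s (Jt s)) := by
      have h5 := (hasSum_nat_add_iff' (f := fun n => pr1_I A x₀ n t) 1
        (g := x₀ + ∫ s in (0 : ℝ)..t, A s (Jt s)))
      rw [← h5]
      simpa [pr1_I] using h3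
    have h6 : J0 t = x₀ + ∫ s in (0 : ℝ)..t, A s (Jt s) := (hsum t ht).unique h4
    have h7 : Jt t = J0 t := by simp only [hJt]; rw [hce t ht]
    rw [h7, h6]
  refine ⟨J, by simp [hJ], fun t ht => ?_⟩
  rw [heq t ht]
  exact hd t

end LinearODE

section Flow

variable {W : Type} [NormedAddCommGroup W] [NormedSpace ℝ W] [FiniteDimensional ℝ W]

/-- Uniform facts near one trajectory. -/
theorem pr1_unif {F : W → W} (hF : ContDiff ℝ 1 F) {φ : W → ℝ → W}
    (h0 : ∀ y, φ y 0 = y) (hφ : ∀ y t, HasDerivAt (φ y) (F (φ y t)) t) (y₀ : W) :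
    ∃ L : ℝ, 0 < L ∧ ∃ C : ℝ, 0 < C ∧ ∃ r : ℝ, 0 < r ∧
      (∀ y, ‖y - y₀‖ ≤ r → ∀ t ∈ Icc (0 : ℝ) 1, ‖φ y t - φ y₀ t‖ ≤ C * ‖y - y₀‖) ∧
      (∀ y, ‖y - y₀‖ ≤ r → ∀ t ∈ Icc (0 : ℝ) 1, ‖fderiv ℝ F (φ y t)‖ ≤ L) ∧
      (∀ ε > 0, ∃ δ > 0, ∀ y, ‖y - y₀‖ ≤ δ → ∀ t ∈ Icc (0 : ℝ) 1,
        ∀ x ∈ segment ℝ (φ y₀ t) (φ y t), ‖fderiv ℝ F x - fderiv ℝ F (φ y₀ t)‖ ≤ ε) := by
  have hcont : ∀ y, Continuous (φ y) := fun y =>
    continuous_iff_continuousAt.mpr fun t => (hφ y t).continuousAt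
  have hdF : Continuous (fderiv ℝ F) := (contDiff_one_iff_fderiv.mp hF).2
  have hFd : Differentiable ℝ F := (contDiff_one_iff_fderiv.mp hF).1
  obtain ⟨R, hR⟩ := (isCompact_Icc (a := (0 : ℝ)) (b := 1)).exists_bound_of_continuousOn
    (hcont y₀).continuousOn
  set K : Set W := Metric.closedBall 0 (R + 1) with hKdef
  have hKc : IsCompact K := isCompact_closedBall _ _
  have hKconv : Convex ℝ K := convex_closedBall _ _
  obtain ⟨L', hL'⟩ := hKc.exists_bound_of_continuousOn hdF.continuousOn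
  set L : ℝ := max L' 1
  have hL0 : 0 < L := lt_of_lt_of_le one_pos (le_max_right _ _)
  have hL : ∀ x ∈ K, ‖fderiv ℝ F x‖ ≤ L := fun x hx => (hL' x hx).trans (le_max_left _ _)
  have hLip : ∀ x ∈ K, ∀ y ∈ K, ‖F y - F x‖ ≤ L * ‖y - x‖ := fun x hx y hy =>
    hKconv.norm_image_sub_le_of_norm_fderiv_le (fun z _ => hFd z) hL hx hy
  set C : ℝ := Real.exp (L + 1) with hC
  have hC0 : 0 < C := Real.exp_pos _
  have hmemK : ∀ t ∈ Icc (0 : ℝ) 1, ∀ z : W, ‖z - φ y₀ t‖ ≤ 1 → z ∈ K := by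
    intro t ht z hz
    rw [hKdef, mem_closedBall_zero_iff]
    calc ‖z‖ = ‖(z - φ y₀ t) + φ y₀ t‖ := by rw [sub_add_cancel]
      _ ≤ ‖z - φ y₀ t‖ + ‖φ y₀ t‖ := norm_add_le _ _
      _ ≤ 1 + R := add_le_add hz (hR t ht)
      _ = R + 1 := add_comm _ _
  have hclose : ∀ y, ‖y - y₀‖ ≤ 1 / C → ∀ t ∈ Icc (0 : ℝ) 1,
      ‖φ y t - φ y₀ t‖ ≤ C * ‖y - y₀‖ := by
    intro y hy t ht
    rcases eq_or_ne y y₀ with rfl | hne
    · simp
    have hpos : 0 < ‖y - y₀‖ := norm_pos_iff.mpr (sub_ne_zero.mpr hne)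
    have hexp : ∀ s ∈ Icc (0 : ℝ) 1, ‖y - y₀‖ * Real.exp ((L + 1) * s) ≤ C * ‖y - y₀‖ := by
      intro s hs
      rw [mul_comm C]
      refine mul_le_mul_of_nonneg_left ?_ hpos.le
      rw [hC]
      refine Real.exp_le_exp.mpr ?_
      nlinarith [hs.2, hL0]
    have hC1 : C * ‖y - y₀‖ ≤ 1 := by
      calc C * ‖y - y₀‖ ≤ C * (1 / C) := mul_le_mul_of_nonneg_left hy hC0.le
        _ = 1 := by field_simp
    have key := image_norm_le_of_norm_deriv_right_lt_deriv_boundary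
      (f := fun s => φ y s - φ y₀ s) (f' := fun s => F (φ y s) - F (φ y₀ s)) (a := 0) (b := 1)
      (B := fun s => ‖y - y₀‖ * Real.exp ((L + 1) * s))
      (B' := fun s => ‖y - y₀‖ * (Real.exp ((L + 1) * s) * (L + 1)))
      ((hcont y).sub (hcont y₀)).continuousOn
      (fun s _ => ((hφ y s).sub (hφ y₀ s)).hasDerivWithinAt)
      (by simp [h0])
      (fun s => by
        have h1 : HasDerivAt (fun s : ℝ => (L + 1) * s) (L + 1) s := by
          simpa using (hasDerivAt_id s).const_mul (L + 1)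
        exact h1.exp.const_mul _)
      (fun s hs hEq => by
        have hs' : s ∈ Icc (0 : ℝ) 1 := ⟨hs.1, hs.2.le⟩
        have hB1 : ‖φ y s - φ y₀ s‖ ≤ 1 := by
          have := hexp s hs'
          linarith
        have hm1 : φ y s ∈ K := hmemK s hs' _ hB1
        have hm2 : φ y₀ s ∈ K := hmemK s hs' _ (by simp)
        have h2 := hLip _ hm2 _ hm1
        rw [hEq] at h2
        have h3 : 0 < ‖y - y₀‖ * Real.exp ((L + 1) * s) := mul_pos hpos (Real.exp_pos _)
        nlinarith)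
    exact (key ht).trans (hexp t ht)
  have hclose1 : ∀ y, ‖y - y₀‖ ≤ 1 / C → ∀ t ∈ Icc (0 : ℝ) 1, ‖φ y t - φ y₀ t‖ ≤ 1 := by
    intro y hy t ht
    calc ‖φ y t - φ y₀ t‖ ≤ C * ‖y - y₀‖ := hclose y hy t ht
      _ ≤ C * (1 / C) := mul_le_mul_of_nonneg_left hy hC0.le
      _ = 1 := by field_simp
  refine ⟨L, hL0, C, hC0, 1 / C, by positivity, hclose, ?_, ?_⟩
  · intro y hy t ht
    exact hL _ (hmemK t ht _ (hclose1 y hy t ht))
  · intro ε hε
    have huc : UniformContinuousOn (fderiv ℝ F) K :=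
      hKc.uniformContinuousOn_of_continuous hdF.continuousOn
    rw [Metric.uniformContinuousOn_iff] at huc
    obtain ⟨δ₁, hδ₁, hδ₁'⟩ := huc ε hε
    refine ⟨min (1 / C) (δ₁ / (2 * C)), lt_min (by positivity) (by positivity), ?_⟩
    intro y hy t ht x hx
    have hy1 : ‖y - y₀‖ ≤ 1 / C := hy.trans (min_le_left _ _)
    have hy2 : ‖y - y₀‖ ≤ δ₁ / (2 * C) := hy.trans (min_le_right _ _)
    have hxn : ‖x - φ y₀ t‖ ≤ ‖φ y t - φ y₀ t‖ := by
      have h1 : segment ℝ (φ y₀ t) (φ y t) ⊆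
          Metric.closedBall (φ y₀ t) ‖φ y t - φ y₀ t‖ :=
        (convex_closedBall _ _).segment_subset (Metric.mem_closedBall_self (norm_nonneg _))
          (by rw [mem_closedBall_iff_norm])
      have h2 := h1 hx
      rwa [mem_closedBall_iff_norm] at h2
    have hxK : x ∈ K := hmemK t ht _ (hxn.trans (hclose1 y hy1 t ht))
    have h0K : φ y₀ t ∈ K := hmemK t ht _ (by simp)
    have hlt : dist x (φ y₀ t) < δ₁ := by
      rw [dist_eq_norm]
      calc ‖x - φ y₀ t‖ ≤ C * ‖y - y₀‖ := hxn.trans (hclose y hy1 t ht)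
        _ ≤ C * (δ₁ / (2 * C)) := mul_le_mul_of_nonneg_left hy2 hC0.le
        _ = δ₁ / 2 := by field_simp
        _ < δ₁ := by linarith
    have := hδ₁' x hxK (φ y₀ t) h0K hlt
    rw [dist_eq_norm] at this
    exact this.le

/-- The time-one map of a `C¹` field with global flow is `C¹`. -/
theorem pr1_timeOne {F : W → W} (hF : ContDiff ℝ 1 F) {φ : W → ℝ → W}
    (h0 : ∀ y, φ y 0 = y) (hφ : ∀ y t, HasDerivAt (φ y) (F (φ y t)) t) :
    ContDiff ℝ 1 (fun y => φ y 1) := by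
  have : CompleteSpace W := FiniteDimensional.complete ℝ W
  have hcont : ∀ y, Continuous (φ y) := fun y =>
    continuous_iff_continuousAt.mpr fun t => (hφ y t).continuousAt
  have hdF : Continuous (fderiv ℝ F) := (contDiff_one_iff_fderiv.mp hF).2
  have hFd : Differentiable ℝ F := (contDiff_one_iff_fderiv.mp hF).1
  have hJex : ∀ y, ∃ J : ℝ → W →L[ℝ] W, J 0 = ContinuousLinearMap.id ℝ W ∧
      ∀ t ∈ Icc (0 : ℝ) 1, HasDerivAt J ((fderiv ℝ F (φ y t)).comp (J t)) t := by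
    intro y
    have hA : Continuous (fun t => ContinuousLinearMap.compL ℝ W W W (fderiv ℝ F (φ y t))) :=
      (ContinuousLinearMap.compL ℝ W W W).continuous.comp (hdF.comp (hcont y))
    obtain ⟨J, hJ0, hJ⟩ := pr1_lin hA (ContinuousLinearMap.id ℝ W)
    exact ⟨J, hJ0, fun t ht => hJ t ht⟩
  choose J hJ0 hJ using hJex
  have hJc : ∀ y, ContinuousOn (J y) (Icc 0 1) := fun y t ht =>
    (hJ y t ht).continuousAt.continuousWithinAt
  have h1 : (1 : ℝ) ∈ Icc (0 : ℝ) 1 := ⟨zero_le_one, le_rfl⟩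
  -- differentiability
  have hD : ∀ y₀, HasFDerivAt (fun y => φ y 1) (J y₀ 1) y₀ := by
    intro y₀
    obtain ⟨L, hL0, C, hC0, r, hr, hclose, hbd, hunif⟩ := pr1_unif hF h0 hφ y₀
    rw [hasFDerivAt_iff_isLittleO, Asymptotics.isLittleO_iff]
    intro c hc
    set ε : ℝ := c * L / (C * Real.exp L) with hε
    have hε0 : 0 < ε := by rw [hε]; positivity
    obtain ⟨δ, hδ, hδ'⟩ := hunif ε hε0
    filter_upwards [Metric.closedBall_mem_nhds y₀ (lt_min hr hδ)] with y hy
    rw [mem_closedBall_iff_norm] at hy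
    have hyr : ‖y - y₀‖ ≤ r := hy.trans (min_le_left _ _)
    have hyδ : ‖y - y₀‖ ≤ δ := hy.trans (min_le_right _ _)
    have key := norm_le_gronwallBound_of_norm_deriv_right_le
      (f := fun t => φ y t - φ y₀ t - J y₀ t (y - y₀))
      (f' := fun t => F (φ y t) - F (φ y₀ t) - ((fderiv ℝ F (φ y₀ t)).comp (J y₀ t)) (y - y₀))
      (δ := 0) (K := L) (ε := ε * (C * ‖y - y₀‖)) (a := 0) (b := 1)
      (((hcont y).sub (hcont y₀)).continuousOn.sub
        ((hJc y₀).clm_apply continuousOn_const))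
      (fun t ht => by
        have ht' : t ∈ Icc (0 : ℝ) 1 := ⟨ht.1, ht.2.le⟩
        have h2 : HasDerivAt (fun t => J y₀ t (y - y₀))
            (((fderiv ℝ F (φ y₀ t)).comp (J y₀ t)) (y - y₀)) t := by
          have := (hJ y₀ t ht').clm_apply (hasDerivAt_const t (y - y₀))
          simpa using this
        exact (((hφ y t).sub (hφ y₀ t)).sub h2).hasDerivWithinAt)
      (by simp [h0, hJ0])
      (fun t ht => by
        have ht' : t ∈ Icc (0 : ℝ) 1 := ⟨ht.1, ht.2.le⟩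
        have h3 : ‖F (φ y t) - F (φ y₀ t) - fderiv ℝ F (φ y₀ t) (φ y t - φ y₀ t)‖ ≤
            ε * ‖φ y t - φ y₀ t‖ :=
          (convex_segment (φ y₀ t) (φ y t)).norm_image_sub_le_of_norm_fderiv_le'
            (fun z _ => hFd z) (hδ' y hyδ t ht') (left_mem_segment _ _ _)
            (right_mem_segment _ _ _)
        have h4 : ‖φ y t - φ y₀ t‖ ≤ C * ‖y - y₀‖ := hclose y hyr t ht'
        have h5 : ‖fderiv ℝ F (φ y₀ t)‖ ≤ L := hbd y₀ (by simpa using hr.le) t ht'
        have h6 : F (φ y t) - F (φ y₀ t) - ((fderiv ℝ F (φ y₀ t)).comp (J y₀ t)) (y - y₀) =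
            (F (φ y t) - F (φ y₀ t) - fderiv ℝ F (φ y₀ t) (φ y t - φ y₀ t)) +
            fderiv ℝ F (φ y₀ t) (φ y t - φ y₀ t - J y₀ t (y - y₀)) := by
          simp only [ContinuousLinearMap.comp_apply, map_sub]
          abel
        rw [h6]
        calc _ ≤ ‖F (φ y t) - F (φ y₀ t) - fderiv ℝ F (φ y₀ t) (φ y t - φ y₀ t)‖ +
              ‖fderiv ℝ F (φ y₀ t) (φ y t - φ y₀ t - J y₀ t (y - y₀))‖ := norm_add_le _ _
          _ ≤ ε * (C * ‖y - y₀‖) + L * ‖φ y t - φ y₀ t - J y₀ t (y - y₀)‖ := by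
              refine add_le_add (h3.trans (mul_le_mul_of_nonneg_left h4 hε0.le)) ?_
              exact ((fderiv ℝ F (φ y₀ t)).le_opNorm _).trans
                (mul_le_mul_of_nonneg_right h5 (norm_nonneg _))
          _ = _ := by ring)
      1 h1
    refine key.trans ?_
    rw [gronwallBound_of_K_ne_0 hL0.ne']
    simp only [zero_mul, zero_add, sub_zero, mul_one]
    have h7 : ε * (C * ‖y - y₀‖) / L * (Real.exp L - 1) ≤
        ε * (C * ‖y - y₀‖) / L * Real.exp L := by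
      refine mul_le_mul_of_nonneg_left (by linarith) (by positivity)
    refine h7.trans (le_of_eq ?_)
    rw [hε]
    field_simp
  -- continuity of the derivative
  have hfd : fderiv ℝ (fun y => φ y 1) = fun y => J y 1 := by
    funext y
    exact (hD y).fderiv
  refine contDiff_one_iff_fderiv.mpr ⟨fun y => (hD y).differentiableAt, ?_⟩
  rw [hfd, continuous_iff_continuousAt]
  intro y₀
  obtain ⟨L, hL0, C, hC0, r, hr, hclose, hbd, hunif⟩ := pr1_unif hF h0 hφ y₀
  obtain ⟨M', hM'⟩ := (isCompact_Icc (a := (0 : ℝ)) (b := 1)).exists_bound_of_continuousOn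
    (hJc y₀)
  set M : ℝ := max M' 1
  have hM0 : 0 < M := lt_of_lt_of_le one_pos (le_max_right _ _)
  have hM : ∀ t ∈ Icc (0 : ℝ) 1, ‖J y₀ t‖ ≤ M := fun t ht => (hM' t ht).trans (le_max_left _ _)
  rw [ContinuousAt, tendsto_iff_norm_sub_tendsto_zero, Metric.tendsto_nhds]
  intro c hc
  set ε : ℝ := c * L / (2 * M * Real.exp L) with hε
  have hε0 : 0 < ε := by rw [hε]; positivity
  obtain ⟨δ, hδ, hδ'⟩ := hunif ε hε0
  filter_upwards [Metric.closedBall_mem_nhds y₀ (lt_min hr hδ)] with y hy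
  rw [mem_closedBall_iff_norm] at hy
  have hyr : ‖y - y₀‖ ≤ r := hy.trans (min_le_left _ _)
  have hyδ : ‖y - y₀‖ ≤ δ := hy.trans (min_le_right _ _)
  have key := norm_le_gronwallBound_of_norm_deriv_right_le
    (f := fun t => J y t - J y₀ t)
    (f' := fun t => (fderiv ℝ F (φ y t)).comp (J y t) - (fderiv ℝ F (φ y₀ t)).comp (J y₀ t))
    (δ := 0) (K := L) (ε := ε * M) (a := 0) (b := 1)
    ((hJc y).sub (hJc y₀))
    (fun t ht => by
      have ht' : t ∈ Icc (0 : ℝ) 1 := ⟨ht.1, ht.2.le⟩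
      exact ((hJ y t ht').sub (hJ y₀ t ht')).hasDerivWithinAt)
    (by simp [hJ0])
    (fun t ht => by
      have ht' : t ∈ Icc (0 : ℝ) 1 := ⟨ht.1, ht.2.le⟩
      have h5 : ‖fderiv ℝ F (φ y t)‖ ≤ L := hbd y hyr t ht'
      have h8 : ‖fderiv ℝ F (φ y t) - fderiv ℝ F (φ y₀ t)‖ ≤ ε :=
        hδ' y hyδ t ht' _ (right_mem_segment _ _ _)
      have h6 : (fderiv ℝ F (φ y t)).comp (J y t) - (fderiv ℝ F (φ y₀ t)).comp (J y₀ t) =
          (fderiv ℝ F (φ y t)).comp (J y t - J y₀ t) +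
          (fderiv ℝ F (φ y t) - fderiv ℝ F (φ y₀ t)).comp (J y₀ t) := by
        ext v
        simp only [_root_.sub_apply, ContinuousLinearMap.comp_apply,
          _root_.add_apply, map_sub]
        abel
      rw [h6]
      calc _ ≤ ‖(fderiv ℝ F (φ y t)).comp (J y t - J y₀ t)‖ +
            ‖(fderiv ℝ F (φ y t) - fderiv ℝ F (φ y₀ t)).comp (J y₀ t)‖ := norm_add_le _ _
        _ ≤ L * ‖J y t - J y₀ t‖ + ε * M := by
            refine add_le_add ?_ ?_
            · exact (ContinuousLinearMap.opNorm_comp_le _ _).trans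
                (mul_le_mul_of_nonneg_right h5 (norm_nonneg _))
            · exact (ContinuousLinearMap.opNorm_comp_le _ _).trans
                (mul_le_mul h8 (hM t ht') (norm_nonneg _) hε0.le))
    1 h1
  rw [gronwallBound_of_K_ne_0 hL0.ne'] at key
  simp only [zero_mul, zero_add, sub_zero, mul_one] at key
  have h7 : ε * M / L * (Real.exp L - 1) ≤ ε * M / L * Real.exp L :=
    mul_le_mul_of_nonneg_left (by linarith) (by positivity)
  have h9 : ε * M / L * Real.exp L = c / 2 := by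
    rw [hε]
    field_simp
  rw [Real.dist_eq, sub_zero, abs_of_nonneg (norm_nonneg _)]
  linarith

/-- The (global) flow of a `C¹` vector field is `C¹` in (initial value, time). -/
theorem flow_contDiff {W : Type} [NormedAddCommGroup W] [NormedSpace ℝ W]
    [FiniteDimensional ℝ W] {F : W → W} (hF : ContDiff ℝ 1 F) {φ : W → ℝ → W}
    (h0 : ∀ y, φ y 0 = y) (hφ : ∀ y t, HasDerivAt (φ y) (F (φ y t)) t) :
    ContDiff ℝ 1 (fun p : W × ℝ => φ p.1 p.2) := by
  have hG : ContDiff ℝ 1 (fun p : W × ℝ => ((p.2 • F p.1, 0) : W × ℝ)) :=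
    (contDiff_snd.smul (hF.comp contDiff_fst)).prodMk contDiff_const
  have h := pr1_timeOne (W := W × ℝ) hG
    (φ := fun p t => (φ p.1 (p.2 * t), p.2))
    (fun p => by simp [h0])
    (fun p t => by
      have h1 : HasDerivAt (fun t : ℝ => p.2 * t) p.2 t := by
        simpa using (hasDerivAt_id t).const_mul p.2
      have h2 : HasDerivAt (fun t : ℝ => φ p.1 (p.2 * t)) (p.2 • F (φ p.1 (p.2 * t))) t :=
        (hφ p.1 (p.2 * t)).scomp t h1
      exact h2.prodMk (hasDerivAt_const t p.2))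
  have h3 := contDiff_fst.comp h
  simpa [Function.comp_def] using h3

end Flow

end H46.PR
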